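import Pool.Agent.Helper86.Poly.Goals

set_option autoImplicit false

/-! Packet CONE: the volume of the hull of a point and a small ball. -/

namespace Pool.Agent.Helper31.Poly

open MeasureTheory Set Pool.Agent.Helper86.Poly

namespace PkCONE

/-- the covering of the cone -/
theorem cover (d : ℕ) (c v : E d) (r : ℝ) (hcv : dist c v ≤ 1) (h0 : 0 < r) (N : ℕ) (hN : 0 < N)
    (hNr : 1 / (N : ℝ) ≤ r) :
    convexHull ℝ (insert c (Metric.closedBall v r)) ⊆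
      ⋃ j ∈ Finset.range (N + 1), Metric.closedBall (c + ((j : ℝ) / N) • (v - c)) (2 * r) := by
  intro x hx
  have hne : (Metric.closedBall v r).Nonempty := ⟨v, Metric.mem_closedBall_self h0.le⟩
  rw [convexHull_insert hne, (convex_closedBall v r).convexHull_eq, mem_convexJoin] at hx
  obtain ⟨a, ha, y, hy, hxy⟩ := hx
  rw [mem_singleton_iff] at ha
  subst ha
  rw [segment_eq_image_lineMap] at hxy
  obtain ⟨t, ⟨ht0, ht1⟩, rfl⟩ := hxy
  have hNR : (0 : ℝ) < N := by exact_mod_cast hN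
  have hfl : (⌊(N : ℝ) * t⌋₊ : ℝ) ≤ N * t := Nat.floor_le (by positivity)
  have hfl2 : (N : ℝ) * t < ⌊(N : ℝ) * t⌋₊ + 1 := Nat.lt_floor_add_one _
  have hjN : ⌊(N : ℝ) * t⌋₊ ≤ N := by
    have h1 : (⌊(N : ℝ) * t⌋₊ : ℝ) ≤ N := hfl.trans (by nlinarith)
    exact_mod_cast h1
  simp only [mem_iUnion, Finset.mem_range]
  refine ⟨⌊(N : ℝ) * t⌋₊, by omega, ?_⟩
  rw [Metric.mem_closedBall, dist_eq_norm, AffineMap.lineMap_apply]
  have e1 : (t • (y -ᵥ a) +ᵥ a : E d) - (a + ((⌊(N : ℝ) * t⌋₊ : ℝ) / N) • (v - a)) =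
      t • (y - v) + (t - (⌊(N : ℝ) * t⌋₊ : ℝ) / N) • (v - a) := by
    simp only [vsub_eq_sub, vadd_eq_add]
    module
  rw [e1]
  have h1 : ‖t • (y - v)‖ ≤ r := by
    rw [norm_smul, Real.norm_of_nonneg ht0]
    have h2 : ‖y - v‖ ≤ r := by
      rw [← dist_eq_norm]
      exact Metric.mem_closedBall.1 hy
    nlinarith [norm_nonneg (y - v)]
  have h2 : ‖(t - (⌊(N : ℝ) * t⌋₊ : ℝ) / N) • (v - a)‖ ≤ r := by
    rw [norm_smul, Real.norm_eq_abs]
    have h3 : |t - (⌊(N : ℝ) * t⌋₊ : ℝ) / N| ≤ 1 / N := by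
      have e2 : t - (⌊(N : ℝ) * t⌋₊ : ℝ) / N = (N * t - ⌊(N : ℝ) * t⌋₊) / N := by
        field_simp
      rw [e2, abs_div, abs_of_pos hNR]
      refine div_le_div_of_nonneg_right ?_ hNR.le
      rw [abs_le]
      constructor <;> linarith
    have h4 : ‖v - a‖ ≤ 1 := by
      rw [← dist_eq_norm, dist_comm]
      exact hcv
    calc |t - (⌊(N : ℝ) * t⌋₊ : ℝ) / N| * ‖v - a‖ ≤ (1 / N) * 1 :=
          mul_le_mul h3 h4 (norm_nonneg _) (by positivity)
      _ ≤ r := by rw [mul_one]; exact hNr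
  calc ‖t • (y - v) + (t - (⌊(N : ℝ) * t⌋₊ : ℝ) / N) • (v - a)‖ ≤ _ := norm_add_le _ _
    _ ≤ 2 * r := by linarith

theorem thm : G_CONE := by
  intro d c v r hd hcv h0 h1
  have hr : (0 : ℝ) < 1 / r := by positivity
  have hN : 0 < ⌈1 / r⌉₊ := Nat.ceil_pos.2 hr
  have hNR : (0 : ℝ) < (⌈1 / r⌉₊ : ℝ) := by exact_mod_cast hN
  have hNr : 1 / ((⌈1 / r⌉₊ : ℕ) : ℝ) ≤ r := by
    rw [div_le_iff₀ hNR]
    have := Nat.le_ceil (1 / r)
    rw [div_le_iff₀ h0] at this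
    linarith
  have hup : ((⌈1 / r⌉₊ : ℕ) : ℝ) + 1 ≤ 3 / r := by
    have h2 := Nat.ceil_lt_add_one hr.le
    have h3 : 1 ≤ 1 / r := by rw [le_div_iff₀ h0]; linarith
    have h4 : 3 / r = 3 * (1 / r) := by ring
    rw [h4]
    linarith
  have hcov := cover d c v r hcv h0 ⌈1 / r⌉₊ hN hNr
  refine (measure_mono hcov).trans ((measure_biUnion_finset_le _ _).trans ?_)
  have hball : ∀ j ∈ Finset.range (⌈1 / r⌉₊ + 1),
      volume (Metric.closedBall (c + ((j : ℝ) / ⌈1 / r⌉₊) • (v - c)) (2 * r)) =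
        ENNReal.ofReal ((2 * r) ^ d) * volume (Metric.ball (0 : E d) 1) := by
    intro j _
    rw [Measure.addHaar_closedBall _ _ (by positivity), finrank_euclideanSpace_fin]
  rw [Finset.sum_congr rfl hball, Finset.sum_const, Finset.card_range, nsmul_eq_mul, ← mul_assoc]
  refine mul_le_mul_of_nonneg_right ?_ zero_le
  have e1 : (((⌈1 / r⌉₊ + 1 : ℕ) : ENNReal)) = ENNReal.ofReal ((⌈1 / r⌉₊ : ℝ) + 1) := by
    rw [← ENNReal.ofReal_natCast]
    push_cast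
    rfl
  rw [e1, ← ENNReal.ofReal_mul (by positivity)]
  refine ENNReal.ofReal_le_ofReal ?_
  obtain ⟨k, rfl⟩ : ∃ k, d = k + 1 := ⟨d - 1, by omega⟩
  rw [Nat.add_sub_cancel]
  calc ((⌈1 / r⌉₊ : ℝ) + 1) * (2 * r) ^ (k + 1) ≤ (3 / r) * (2 * r) ^ (k + 1) :=
        mul_le_mul_of_nonneg_right hup (by positivity)
    _ = 3 * 2 ^ (k + 1) * r ^ k := by
        field_simp
        ring

end PkCONE

end Pool.Agent.Helper31.Poly
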